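import Pool.Agent.Lib.MP_c7af3c_ag.T2.IfaceB
import Pool.Agent.Lib.MP_c7af3c_ag.T2.H65.Nab
import Pool.Agent.Lib.MP_c7af3c_ag.LINES.H19.Lidl
import Pool.Agent.Lib.MP_c7af3c_ag.GEN.H12.Reln

/-!
# MP_c7af3c_ag, project T2, plane type: tools (helper14)
-/

set_option autoImplicit false

namespace Pool.Agent.T2.H14

open MvPolynomial Pool.Agent.Gen Pool.Agent.Sharp Pool.Agent.Edge Pool.Agent.T2
open Pool.Agent.Sharp.H75 (dco DG af dt lf)
open Pool.Agent.Edge.H65 (ssub)
open Pool.Agent.T2.H65 (rst nv nF nD br dv)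

section

variable {K : Type} [Field K]

/-! ### linear forms in three variables and lines -/

/-- a form in three variables which vanishes on a line is divisible by its equation -/
theorem div_of_line [CharZero K] {e : ℕ} {G : MvPolynomial (Fin 3) K} (hG : G.IsHomogeneous (e + 1))
    {b c : Fin 3 → K} (hbc : LinearIndependent K ![b, c]) (hl : lineP G b c = 0)
    {z : Fin 3 → K} (hz : z ≠ 0) (hb : ∑ i, z i * b i = 0) (hc : ∑ i, z i * c i = 0) :
    ∃ A : MvPolynomial (Fin 3) K, A.IsHomogeneous e ∧ G = (∑ i, C (z i) * X i) * A := by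
  classical
  have h := Pool.Agent.Lines.H19.lidl K 2 (e + 1) b c hbc G hG hl
  -- every three term form is a multiple of the equation
  have key : ∀ i j k : Fin 3, ∃ a : K, hT b c i j k = C a * ∑ i, C (z i) * X i := by
    have h3 : ∃ a : K, plu b c 0 1 = a * z 2 ∧ plu b c 1 2 = a * z 0 ∧ plu b c 0 2 = - (a * z 1) := by
      rw [Fin.sum_univ_three] at hb hc
      unfold plu
      obtain ⟨i, hi⟩ := Function.ne_iff.1 hz
      rw [Pi.zero_apply] at hi
      fin_cases i
      · simp only [Fin.zero_eta, Fin.isValue] at hi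
        refine ⟨(b 1 * c 2 - b 2 * c 1) / z 0, ?_, ?_, ?_⟩
        · field_simp
          linear_combination c 1 * hb - b 1 * hc
        · field_simp
        · field_simp
          linear_combination c 2 * hb - b 2 * hc
      · simp only [Fin.mk_one, Fin.isValue] at hi
        refine ⟨- (b 0 * c 2 - b 2 * c 0) / z 1, ?_, ?_, ?_⟩
        · field_simp
          linear_combination - c 0 * hb + b 0 * hc
        · field_simp
          linear_combination c 2 * hb - b 2 * hc
        · field_simp
      · simp only [Fin.reduceFinMk, Fin.isValue] at hi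
        refine ⟨(b 0 * c 1 - b 1 * c 0) / z 2, ?_, ?_, ?_⟩
        · field_simp
        · field_simp
          linear_combination - c 1 * hb + b 1 * hc
        · field_simp
          linear_combination - c 0 * hb + b 0 * hc
    obtain ⟨a, h1, h2, h3⟩ := h3
    have hs : ∀ i j, plu b c i j = - plu b c j i := by
      intro i j
      unfold plu
      ring
    have h0 : ∀ i, plu b c i i = 0 := by
      intro i
      unfold plu
      ring
    have k1 := hs 1 0
    have k2 := hs 2 1
    have k3 := hs 2 0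
    rw [h1] at k1
    rw [h2] at k2
    rw [h3] at k3
    intro i j k
    unfold hT
    rw [Fin.sum_univ_three]
    fin_cases i <;> fin_cases j <;> fin_cases k <;>
      simp only [Fin.zero_eta, Fin.mk_one, Fin.reduceFinMk, Fin.isValue, h0, h1, h2, h3, k1, k2,
        k3, map_zero, map_neg, map_mul, zero_mul, neg_neg]
    all_goals first
      | exact ⟨0, by rw [map_zero]; ring1⟩
      | exact ⟨a, by ring1⟩
      | exact ⟨-a, by rw [map_neg]; ring1⟩
  have key2 : ∀ P ∈ Submodule.span K {P : MvPolynomial (Fin 3) K | ∃ i j k, ∃ I : Fin 3 →₀ ℕ,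
      I.degree + 1 = e + 1 ∧ P = hT b c i j k * monomial I 1},
      ∃ A : MvPolynomial (Fin 3) K, A.IsHomogeneous e ∧ P = (∑ i, C (z i) * X i) * A := by
    intro P hP
    induction hP using Submodule.span_induction with
    | mem P hP =>
      obtain ⟨i, j, k, I, hI, rfl⟩ := hP
      obtain ⟨a, ha⟩ := key i j k
      refine ⟨C a * monomial I 1, ?_, by rw [ha]; ring⟩
      have h1 := (isHomogeneous_C (Fin 3) a).mul (isHomogeneous_monomial (1 : K) (d := I) (n := e)
        (by omega))
      rwa [zero_add] at h1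
    | zero => exact ⟨0, isHomogeneous_zero _ _ _, by rw [mul_zero]⟩
    | add P Q _ _ hP hQ =>
      obtain ⟨A, hA, rfl⟩ := hP
      obtain ⟨B, hB, rfl⟩ := hQ
      exact ⟨A + B, hA.add hB, by ring⟩
    | smul a P _ hP =>
      obtain ⟨A, hA, rfl⟩ := hP
      refine ⟨C a * A, ?_, by rw [smul_eq_C_mul]; ring⟩
      have h1 := (isHomogeneous_C (Fin 3) a).mul hA
      rwa [zero_add] at h1
  exact key2 G h

/-- restriction to a line of the plane -/
theorem lineP_ssub {P : Fin 3 → Fin 5 → K} (G : MvPolynomial (Fin 5) K) (b c : Fin 3 → K) :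
    lineP G (fun f => ∑ i, P i f * b i) (fun f => ∑ i, P i f * c i) = lineP (ssub P G) b c := by
  unfold lineP ssub
  rw [← AlgHom.comp_apply]
  congr 1
  apply MvPolynomial.algHom_ext
  intro f
  rw [aeval_X, AlgHom.comp_apply, aeval_X, map_sum]
  simp only [map_mul, map_sum, aeval_X, algHom_C]
  rw [Finset.mul_sum, ← Finset.sum_add_distrib]
  refine Finset.sum_congr rfl fun i _ => ?_
  simp only [Polynomial.algebraMap_eq]
  ring

theorem eval_ssub {P : Fin 3 → Fin 5 → K} (G : MvPolynomial (Fin 5) K) (b : Fin 3 → K) :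
    eval (fun f => ∑ i, P i f * b i) G = eval b (ssub P G) := by
  unfold ssub
  induction G using MvPolynomial.induction_on with
  | C a => rw [eval_C, algHom_C, MvPolynomial.algebraMap_eq, eval_C]
  | add F G hF hG => rw [map_add, map_add, map_add, hF, hG]
  | mul_X F j hF =>
    rw [map_mul, map_mul, map_mul, hF, aeval_X, eval_X, map_sum]
    congr 1
    refine Finset.sum_congr rfl fun i _ => ?_
    rw [map_mul, eval_C, eval_X]

end

end Pool.Agent.T2.H14

namespace Pool.Agent.T2

open MvPolynomial Pool.Agent.Gen Pool.Agent.Sharp Pool.Agent.Edge Pool.Agent.T2.H14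
open Pool.Agent.Sharp.H75 (dco DG af dt lf)
open Pool.Agent.Edge.H65 (ssub)

/-! ### the structure `Pl` -/

section pl

variable {K : Type} [Field K] {D : D6 K} {x : Fin 5 → K} {t : Fin 3 → Fin 5}
  {P : Fin 3 → Fin 5 → K}

theorem V_der (D : D6 K) (u : Fin 5 → K) (G : MvPolynomial (Fin 5) K) (p : Fin 5) :
    D.V u 0 G p = der D G (u p) := by
  unfold der
  rw [← Sharp.H75.VT_apply, Sharp.H75.VT_eq, Fin.sum_univ_one]

theorem Pl.x_eq (h : Pl D x t P) : x = fun f => ∑ i, P i f * x (t i) := funext h.xP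

theorem Pl.eval_x (h : Pl D x t P) (G : MvPolynomial (Fin 5) K) :
    eval x G = eval (fun i => x (t i)) (ssub P G) := by
  rw [← eval_ssub]
  exact congrArg (fun u => eval u G) h.x_eq

/-- the coordinate `t 0` of `D_G x` is zero -/
theorem Pl.V_x0 (h : Pl D x t P) (G : MvPolynomial (Fin 5) K) : D.V x 0 G (t 0) = 0 := by
  rw [V_der, h.x0, Derivation.map_one_eq_zero]

/-- the coordinates `t j` of `D_G P_i` are zero -/
theorem Pl.V_Pt (h : Pl D x t P) (G : MvPolynomial (Fin 5) K) (i j : Fin 3) :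
    D.V (P i) 0 G (t j) = 0 := by
  rw [V_der, h.Pt]
  split_ifs
  · rw [Derivation.map_one_eq_zero]
  · rw [map_zero]

theorem Pl.span_x (h : Pl D x t P) {G : MvPolynomial (Fin 5) K}
    (hG : D.V x 0 G ∈ Submodule.span K {x}) : D.V x 0 G = 0 := by
  obtain ⟨a, ha⟩ := Submodule.mem_span_singleton.1 hG
  have h1 := congrFun ha (t 0)
  rw [Pi.smul_apply, h.x0, h.V_x0, smul_eq_mul, mul_one] at h1
  rw [← ha, h1, zero_smul]

theorem Pl.span_P (h : Pl D x t P) {u : Fin 5 → K} (hu : u ∈ Submodule.span K (Set.range P)) :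
    u = fun f => ∑ j, u (t j) * P j f := by
  obtain ⟨a, ha⟩ := (Submodule.mem_span_range_iff_exists_fun K).1 hu
  have h1 : ∀ j, u (t j) = a j := by
    intro j
    rw [← ha, Finset.sum_apply]
    simp only [Pi.smul_apply, smul_eq_mul, h.Pt]
    rw [Finset.sum_eq_single j]
    · rw [if_pos rfl, mul_one]
    · intro i _ hij
      rw [if_neg hij, mul_zero]
    · intro hj; exact absurd (Finset.mem_univ _) hj
  funext f
  simp only [h1]
  rw [← ha, Finset.sum_apply]
  rfl

/-- the values depend on the restriction only -/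
theorem Pl.V_congr (h : Pl D x t P) {G H : MvPolynomial (Fin 5) K} (hG : G.IsHomogeneous 6)
    (hH : H.IsHomogeneous 6) (he : ssub P G = ssub P H) :
    D.V x 0 G = D.V x 0 H ∧ ∀ i, D.V (P i) 0 G = D.V (P i) 0 H := by
  have h1 := h.int (G - H) (hG.sub hH) (by rw [map_sub, he, sub_self])
  refine ⟨?_, fun i => ?_⟩
  · rw [← sub_eq_zero, ← map_sub]; exact h1.1
  · rw [← sub_eq_zero, ← map_sub]; exact h1.2 i

theorem Pl.ssub_rename (h : Pl D x t P) (g : MvPolynomial (Fin 3) K) :
    ssub P (rename t g) = g := by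
  unfold ssub
  rw [aeval_rename]
  have h1 : ((fun j => ∑ i, C (P i j) * X i) ∘ t : Fin 3 → MvPolynomial (Fin 3) K) = X := by
    funext j
    rw [Function.comp_apply]
    simp only [h.Pt]
    rw [Finset.sum_eq_single j]
    · rw [if_pos rfl, C_1, one_mul]
    · intro i _ hij
      rw [if_neg hij, C_0, zero_mul]
    · intro hj; exact absurd (Finset.mem_univ _) hj
  rw [h1, aeval_X_left, AlgHom.id_apply]

theorem Pl.li_P (h : Pl D x t P) : LinearIndependent K P := by
  rw [Fintype.linearIndependent_iff]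
  intro a ha j
  have h1 := congrFun ha (t j)
  rw [Finset.sum_apply] at h1
  simp only [Pi.smul_apply, smul_eq_mul, h.Pt, Pi.zero_apply] at h1
  rw [Finset.sum_eq_single j] at h1
  · rw [if_pos rfl, mul_one] at h1
    exact h1
  · intro i _ hij
    rw [if_neg hij, mul_zero]
  · intro hj; exact absurd (Finset.mem_univ _) hj

/-- membership in `R6` through any lift -/
theorem Pl.mem_R6 (h : Pl D x t P) {G : MvPolynomial (Fin 5) K} (hG : G.IsHomogeneous 6) :
    ssub P G ∈ R6 D x t P ↔ D.V x 0 G = 0 ∧ ∀ i, D.V (P i) 0 G = 0 := by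
  have h1 : (ssub P G).IsHomogeneous 6 := Edge.H65.ssub_hom P hG
  have h2 := h.V_congr hG (h1.rename_isHomogeneous (f := t)) (h.ssub_rename _).symm
  constructor
  · rintro ⟨-, h3, h4⟩
    refine ⟨by rw [h2.1, h3], fun i => by rw [h2.2 i, h4 i]⟩
  · rintro ⟨h3, h4⟩
    refine ⟨h1, by rw [← h2.1, h3], fun i => by rw [← h2.2 i, h4 i]⟩

/-- `F'(x) D_G x = - G(x)` -/
theorem Pl.grad (h : Pl D x t P) {G : MvPolynomial (Fin 5) K} (hG : G.IsHomogeneous 6) :
    ∑ p, eval x (pderiv p (D.F 0)) * D.V x 0 G p = - eval x G := by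
  have h1 := Pool.Agent.Gen.H12.reln K 4 1 (fun _ => 6) D x (fun m => by
    rw [Fin.fin_one_eq_zero m]; exact h.h0) 0 0 G hG
  rwa [if_pos rfl] at h1

theorem Pl.eval_zero (h : Pl D x t P) {G : MvPolynomial (Fin 5) K} (hG : G.IsHomogeneous 6)
    (h0 : D.V x 0 G = 0) : eval x G = 0 := by
  have h1 := h.grad hG
  rw [h0] at h1
  simp only [Pi.zero_apply, mul_zero, Finset.sum_const_zero] at h1
  exact neg_eq_zero.1 h1.symm

end pl

end Pool.Agent.T2
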