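import Pool.Agent.Lib.MP_c7af3c_ag.T2.M3.Defs
import Pool.Agent.Lib.MP_c7af3c_ag.T2.H14.Tools
import Pool.Agent.Lib.MP_c7af3c_ag.T2.H54.SizeG
import Pool.Agent.Lib.MP_c7af3c_ag.SHARP.H54.Root

/-!
# MP_c7af3c_ag, project T2: row M3_C, the local inequality of the cubic block (helper14)
-/

set_option autoImplicit false

namespace Pool.Agent.T2.H14

open MvPolynomial Pool.Agent.Gen Pool.Agent.Sharp Pool.Agent.Edge Pool.Agent.T2 Pool.Agent.T2.M3
open Pool.Agent.Edge.H65 (ssub)

section

variable {L : Type} [Field L]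

/-! ### column and row operations -/

/-- change of the ten forms -/
theorem dM_cols (e : Cl ≃ Rw) (D : D6 L) (Q : Fin 3 → Fin 5 → L)
    (G G' : I10 → MvPolynomial (Fin 5) L) (r r' : Fin 2 → I10 → L) (S : Matrix I10 I10 L)
    (hG : ∀ I i, D.V (Q i) 0 (G' I) = ∑ J, S I J • D.V (Q i) 0 (G J))
    (hr : ∀ s I, r' s I = ∑ J, S I J * r s J) :
    dM e D Q G' r' = S.det * dM e D Q G r := by
  classical
  have h1 : (Matrix.of fun a k => cM D Q G' r' k (e a) : Matrix Cl Cl L) =
      (Matrix.of fun a k => cM D Q G r k (e a)) *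
        Matrix.fromBlocks 1 0 0 S.transpose := by
    ext a k
    rw [Matrix.mul_apply, Fintype.sum_sum_type]
    rcases k with q | I
    · simp only [Matrix.of_apply, Matrix.fromBlocks_apply₁₁, Matrix.fromBlocks_apply₂₁,
        Matrix.zero_apply, mul_zero, Finset.sum_const_zero, add_zero, Matrix.one_apply, mul_ite,
        mul_one, Finset.sum_ite_eq', Finset.mem_univ, if_true]
      rcases q with q | q <;> rfl
    · simp only [Matrix.of_apply, Matrix.fromBlocks_apply₁₂, Matrix.fromBlocks_apply₂₂,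
        Matrix.zero_apply, mul_zero, Finset.sum_const_zero, zero_add, Matrix.transpose_apply]
      rcases hea : e a with p | s
      · simp only [cM, Sum.elim_inl]
        rw [hG I p.1, Finset.sum_apply]
        exact Finset.sum_congr rfl fun J _ => by rw [Pi.smul_apply, smul_eq_mul, mul_comm]
      · simp only [cM, Sum.elim_inr]
        rw [hr s I]
        exact Finset.sum_congr rfl fun J _ => mul_comm _ _
  unfold dM
  rw [h1, Matrix.det_mul, Matrix.det_fromBlocks_zero₂₁, Matrix.det_one, one_mul,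
    Matrix.det_transpose, mul_comm]

/-- change of the two rows -/
theorem dM_rows (e : Cl ≃ Rw) (D : D6 L) (Q : Fin 3 → Fin 5 → L)
    (G : I10 → MvPolynomial (Fin 5) L) (r r' : Fin 2 → I10 → L) (N : Matrix (Fin 2) (Fin 2) L)
    (hr : ∀ s I, r' s I = ∑ s', N s s' * r s' I) :
    dM e D Q G r' = N.det * dM e D Q G r := by
  classical
  have h1 : (Matrix.of fun a k => cM D Q G r' k (e a) : Matrix Cl Cl L) =
      (Matrix.fromBlocks (1 : Matrix (Fin 3 × Fin 5) (Fin 3 × Fin 5) L) 0 0 N).submatrix e e *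
      (Matrix.of fun a k => cM D Q G r k (e a)) := by
    ext a k
    rw [Matrix.mul_apply]
    simp only [Matrix.submatrix_apply, Matrix.of_apply]
    rw [Equiv.sum_comp e fun b => Matrix.fromBlocks
      (1 : Matrix (Fin 3 × Fin 5) (Fin 3 × Fin 5) L) 0 0 N (e a) b * cM D Q G r k b,
      Fintype.sum_sum_type]
    rcases e a with p | s
    · simp only [Matrix.fromBlocks_apply₁₁, Matrix.fromBlocks_apply₁₂,
        Matrix.zero_apply, zero_mul, Finset.sum_const_zero, add_zero, Matrix.one_apply, ite_mul,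
        one_mul, Finset.sum_ite_eq, Finset.mem_univ, if_true]
      rcases k with (q | q) | I <;> rfl
    · simp only [Matrix.fromBlocks_apply₂₁, Matrix.fromBlocks_apply₂₂,
        Matrix.zero_apply, zero_mul, Finset.sum_const_zero, zero_add]
      rcases k with (q | q) | I
      · simp only [cM, Sum.elim_inr, mul_zero, Finset.sum_const_zero]
      · simp only [cM, Sum.elim_inr, mul_zero, Finset.sum_const_zero]
      · simp only [cM, Sum.elim_inr]
        exact hr s I
  unfold dM
  rw [h1, Matrix.det_mul, Matrix.det_submatrix_equiv_self, Matrix.det_fromBlocks_zero₂₁,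
    Matrix.det_one, one_mul]

end

section

variable {L : Type} [Field L] {Γ : Type} [LinearOrderedCommGroupWithZero Γ] (v : Valuation L Γ)

/-- two rows whose minors are bounded -/
theorem rows2 {ι : Type} [Fintype ι] [Nonempty ι] (r : Fin 2 → ι → L) (κ : L) (hκ : κ ≠ 0)
    (h : ∀ I I', v (r 0 I * r 1 I' - r 0 I' * r 1 I) ≤ v κ) :
    ∃ (N : Matrix (Fin 2) (Fin 2) L) (r0 : Fin 2 → ι → L),
      (∀ s I, r s I = ∑ s', N s s' * r0 s' I) ∧ v N.det ≤ v κ ∧
      (N.det = 0 ∨ ∀ s I, v (r0 s I) ≤ 1) := by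
  classical
  obtain ⟨I0, -, hI0⟩ := Finset.exists_max_image Finset.univ (fun I => v (r 0 I))
    Finset.univ_nonempty
  by_cases h0 : r 0 I0 = 0
  · have h1 : ∀ I, r 0 I = 0 := by
      intro I
      have h2 := hI0 I (Finset.mem_univ _)
      rw [h0, map_zero] at h2
      exact (map_eq_zero v).1 (le_antisymm h2 zero_le)
    refine ⟨Matrix.diagonal ![0, 1], r, ?_, ?_, Or.inl ?_⟩
    · intro s I
      rw [Fin.sum_univ_two]
      fin_cases s
      · simp [h1]
      · simp [Matrix.diagonal]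
    · rw [Matrix.det_diagonal, Fin.prod_univ_two]
      simp
    · rw [Matrix.det_diagonal, Fin.prod_univ_two]
      simp
  · have hv0 : v (r 0 I0) ≠ 0 := (map_ne_zero v).2 h0
    refine ⟨!![r 0 I0, 0; r 1 I0, κ / r 0 I0],
      ![fun I => r 0 I / r 0 I0, fun I => (r 0 I0 * r 1 I - r 0 I * r 1 I0) / κ], ?_, ?_,
      Or.inr ?_⟩
    · intro s I
      rw [Fin.sum_univ_two]
      fin_cases s
      · simp only [Fin.zero_eta, Fin.isValue, Matrix.of_apply, Matrix.cons_val_zero,
          Matrix.cons_val_one, Matrix.cons_val', Matrix.cons_val_fin_one]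
        field_simp
        ring
      · simp only [Fin.mk_one, Fin.isValue, Matrix.of_apply, Matrix.cons_val_zero,
          Matrix.cons_val_one, Matrix.cons_val', Matrix.cons_val_fin_one]
        field_simp
        ring
    · rw [Matrix.det_fin_two_of, zero_mul, sub_zero, mul_div_cancel₀ _ h0]
    · intro s I
      fin_cases s
      · simp only [Fin.zero_eta, Fin.isValue, Matrix.cons_val_zero]
        rw [map_div₀]
        exact div_le_one_of_le₀ (hI0 I (Finset.mem_univ _)) zero_le
      · simp only [Fin.mk_one, Fin.isValue, Matrix.cons_val_one, Matrix.cons_val_fin_one]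
        rw [map_div₀]
        exact div_le_one_of_le₀ (h I0 I) zero_le

end


/-! ### the forms -/

section

variable {L : Type} [Field L]

theorem mem_I10 {I : Fin 3 →₀ ℕ} : I ∈ (Finset.univ : Finset (Fin 3)).finsuppAntidiag 3 ↔
    I.degree = 3 := by
  rw [Finset.mem_finsuppAntidiag, Finsupp.degree_eq_sum]
  exact ⟨fun h => h.1, fun h => ⟨h, Finset.subset_univ _⟩⟩

/-- a cubic form is the sum of its monomials -/
theorem expand3 {p : MvPolynomial (Fin 3) L} (hp : p.IsHomogeneous 3) :
    p = ∑ J : I10, C (coeff J.1 p) * monomial J.1 1 := by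
  classical
  ext K
  rw [coeff_sum]
  simp only [coeff_C_mul, coeff_monomial, mul_ite, mul_one, mul_zero]
  by_cases hK : K ∈ (Finset.univ : Finset (Fin 3)).finsuppAntidiag 3
  · rw [Finset.sum_eq_single ⟨K, hK⟩]
    · rw [if_pos rfl]
    · intro J _ hJ
      rw [if_neg]
      intro h
      exact hJ (Subtype.ext h)
    · intro h
      exact absurd (Finset.mem_univ _) h
  · have h1 : coeff K p = 0 := by
      by_contra h2
      refine hK (mem_I10.2 ?_)
      rw [Finsupp.degree_eq_weight_one (R := ℕ)]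
      exact hp h2
    rw [h1, Finset.sum_eq_zero]
    intro J _
    rw [if_neg]
    intro h
    exact hK (h ▸ J.2)

/-- the mixed forms -/
noncomputable def GX (t t' : Fin 3 → Fin 5) (B : MvPolynomial (Fin 3) L) (I : I10) :
    MvPolynomial (Fin 5) L :=
  rename t B * rename t' (monomial I.1 1)

theorem GX_hom (t t' : Fin 3 → Fin 5) {B : MvPolynomial (Fin 3) L} (hB : B.IsHomogeneous 3)
    (I : I10) : (GX t t' B I).IsHomogeneous 6 :=
  (hB.rename_isHomogeneous (f := t)).mul ((isHomogeneous_monomial (1 : L)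
    (mem_I10.1 I.2)).rename_isHomogeneous (f := t'))

theorem GB_hom (t : Fin 3 → Fin 5) {B : MvPolynomial (Fin 3) L} (hB : B.IsHomogeneous 3)
    (I : I10) : (GB t B I).IsHomogeneous 6 :=
  (hB.mul (isHomogeneous_monomial (1 : L) (mem_I10.1 I.2))).rename_isHomogeneous (f := t)

/-- the substitution on monomials -/
theorem s3_mono (m : Matrix (Fin 3) (Fin 3) L) (I : I10) :
    ∏ i, (∑ j, C (m i j) * X j) ^ (I.1 i) =
      ∑ J : I10, C (s3 m I J) * (monomial J.1 1 : MvPolynomial (Fin 3) L) := by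
  have h1 : (∏ i, (∑ j, C (m i j) * X j) ^ (I.1 i) : MvPolynomial (Fin 3) L).IsHomogeneous
      (∑ i, I.1 i) := by
    refine IsHomogeneous.prod _ _ _ fun i _ => ?_
    have h2 : (∑ j, C (m i j) * X j : MvPolynomial (Fin 3) L).IsHomogeneous 1 := by
      refine IsHomogeneous.sum _ _ _ fun j _ => ?_
      have h3 := (isHomogeneous_C (Fin 3) (m i j)).mul (isHomogeneous_X L j)
      rwa [zero_add] at h3
    have h4 := h2.pow (I.1 i)
    rwa [one_mul] at h4
  have h2 : ∑ i, I.1 i = 3 := by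
    rw [← Finsupp.degree_eq_sum]
    exact mem_I10.1 I.2
  rw [h2] at h1
  exact expand3 h1

theorem ssub_GX {D : D6 L} {x : Fin 5 → L} {t : Fin 3 → Fin 5} {P : Fin 3 → Fin 5 → L}
    (h : Pl D x t P) (t' : Fin 3 → Fin 5) (B : MvPolynomial (Fin 3) L) (I : I10) :
    ssub P (GX t t' B I) = ssub P (∑ J : I10, s3 (Mt P t').transpose I J • GB t B J) := by
  unfold GX GB
  rw [map_mul, h.ssub_rename, map_sum]
  simp only [map_smul, h.ssub_rename]
  have h1 : ssub P (rename t' (monomial I.1 1)) =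
      ∏ i, (∑ j, C ((Mt P t').transpose i j) * X j) ^ (I.1 i) := by
    unfold ssub
    rw [aeval_rename, aeval_monomial, map_one, one_mul, Finsupp.prod_fintype _ _ fun i => pow_zero _]
    rfl
  rw [h1, s3_mono, Finset.mul_sum]
  refine Finset.sum_congr rfl fun J _ => ?_
  rw [smul_eq_C_mul]
  ring

/-- the variations of the mixed forms -/
theorem V_GX {D : D6 L} {x : Fin 5 → L} {t : Fin 3 → Fin 5} {P : Fin 3 → Fin 5 → L}
    (h : Pl D x t P) (t' : Fin 3 → Fin 5) {B : MvPolynomial (Fin 3) L} (hB : B.IsHomogeneous 3)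
    (I : I10) (i : Fin 3) :
    D.V ((![x, P 1, P 2] : Fin 3 → Fin 5 → L) i) 0 (GX t t' B I) =
      ∑ J, s3 (Mt P t').transpose I J •
        D.V ((![x, P 1, P 2] : Fin 3 → Fin 5 → L) i) 0 (GB t B J) := by
  have h1 : (∑ J : I10, s3 (Mt P t').transpose I J • GB t B J).IsHomogeneous 6 := by
    refine IsHomogeneous.sum _ _ _ fun J _ => ?_
    exact (homogeneousSubmodule (Fin 5) L 6).smul_mem _ (GB_hom t hB J)
  have h2 := h.V_congr (GX_hom t t' hB I) h1 (ssub_GX h t' B I)
  have h3 : D.V ((![x, P 1, P 2] : Fin 3 → Fin 5 → L) i) 0 (GX t t' B I) =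
      D.V ((![x, P 1, P 2] : Fin 3 → Fin 5 → L) i) 0
        (∑ J : I10, s3 (Mt P t').transpose I J • GB t B J) := by
    fin_cases i
    · exact h2.1
    · exact h2.2 1
    · exact h2.2 2
  rw [h3, map_sum]
  simp only [map_smul]

end

section

variable {L : Type} [Field L] {Γ : Type} [LinearOrderedCommGroupWithZero Γ] (v : Valuation L Γ)

theorem v_int (z : ℤ) : v (z : L) ≤ 1 := by
  obtain ⟨k, rfl | rfl⟩ := z.eq_nat_or_neg
  · rw [Int.cast_natCast]
    exact G.v_natCast_le v k
  · rw [Int.cast_neg, Int.cast_natCast, Valuation.map_neg]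
    exact G.v_natCast_le v k

/-- the coefficients of the mixed forms are integers -/
theorem GX_coeff (t t' : Fin 3 → Fin 5) (B : MvPolynomial (Fin 3) ℤ) (I : I10)
    (J : Fin 5 →₀ ℕ) :
    v (coeff J (GX t t' (MvPolynomial.map (Int.castRingHom L) B) I)) ≤ 1 := by
  have h1 : GX t t' (MvPolynomial.map (Int.castRingHom L) B) I =
      MvPolynomial.map (Int.castRingHom L) (rename t B * rename t' (monomial I.1 1)) := by
    unfold GX
    rw [map_mul, map_rename, map_rename, map_monomial, eq_intCast, Int.cast_one]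
  rw [h1, coeff_map, eq_intCast]
  exact v_int v _

/-- two rows with bounded minors in the determinant -/
theorem dM_bound (e : Cl ≃ Rw) (D : D6 L) (Q : Fin 3 → Fin 5 → L)
    (G : I10 → MvPolynomial (Fin 5) L) (r : Fin 2 → I10 → L) (κ : L) (hκ : κ ≠ 0) (β : Γ)
    (h : ∀ I I', v (r 0 I * r 1 I' - r 0 I' * r 1 I) ≤ v κ)
    (hβ : ∀ r0 : Fin 2 → I10 → L, (∀ s I, v (r0 s I) ≤ 1) → v (dM e D Q G r0) ≤ β) :
    v (dM e D Q G r) ≤ v κ * β := by
  have hne : Nonempty I10 := ⟨⟨Finsupp.single 0 3, mem_I10.2 (Finsupp.degree_single _ _)⟩⟩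
  obtain ⟨N, r0, h1, h2, h3⟩ := rows2 v r κ hκ h
  rw [dM_rows e D Q G r0 r N h1, map_mul]
  rcases h3 with h3 | h3
  · rw [h3, map_zero, zero_mul]
    exact zero_le
  · exact mul_le_mul' h2 (hβ r0 h3)

/-- Row M3_C: the local inequality. -/
theorem m3c : CStatement := by
  intro hS1 hS2 hF hE hA L _ _ Γ _ v M D x t P hM hdel h B hB e J J' τ
  classical
  obtain ⟨t', Q, g, hm0, hmi, hmax, hg0, hgv, hg1, hg2, hxg, hQ, s, hs⟩ :=
    hA L Γ v x t P h.Pt h.x0 h.xP
  set m : Matrix (Fin 3) (Fin 3) L := (Mt P t').transpose with hm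
  have hdet : m.det = (Mt P t').det := Matrix.det_transpose _
  have hmdet : m.det ≠ 0 := by rw [hdet]; exact hm0
  set BL : MvPolynomial (Fin 3) L := MvPolynomial.map (Int.castRingHom L) B with hBL
  have hBLh : BL.IsHomogeneous 3 := hB.map _
  set r : Fin 2 → I10 → L := fun s I => ∑ K, s3 m I K * e2 J J' s K with hr
  have hr0 : ∀ I, r 0 I = s3 m I J := by
    intro I
    simp only [hr, e2, Matrix.cons_val_zero, Pi.single_apply, mul_ite, mul_one, mul_zero,
      Finset.sum_ite_eq', Finset.mem_univ, if_true]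
  have hr1 : ∀ I, r 1 I = s3 m I J' := by
    intro I
    simp only [hr, e2, Matrix.cons_val_one, Matrix.cons_val_fin_one, Pi.single_apply, mul_ite,
      mul_one, mul_zero, Finset.sum_ite_eq', Finset.mem_univ, if_true]
  -- change of the coordinates
  have e1 : dM e D ![x, P 1, P 2] (GX t t' BL) r =
      (s3 m).det * dM e D ![x, P 1, P 2] (GB t BL) (e2 J J') :=
    dM_cols e D _ _ _ _ _ (s3 m) (fun I i => V_GX h t' hBLh I i) fun s I => rfl
  rw [hS1 L m hmdet] at e1
  -- change of the frame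
  have e3 := hF L D e ![x, P 1, P 2] Q g (GX t t' BL) r hg0 hg1 hg2 hxg
  -- the point
  have hx0 : ∀ f, x f = g 0 0 * Q 0 f := by
    intro f
    have h1 := hxg 0 f
    rw [Fin.sum_univ_three, hg1, hg2, zero_mul, zero_mul, add_zero, add_zero] at h1
    exact h1
  have hξ : g 0 0 ≠ 0 := by
    intro h1
    have h2 := hx0 (t 0)
    rw [h.x0, h1, zero_mul] at h2
    exact one_ne_zero h2
  have hvξ : v (g 0 0) ≠ 0 := (map_ne_zero v).2 hξ
  have hFQ : eval (Q 0) (D.F 0) = 0 := by
    have h1 : eval x (D.F 0) = (g 0 0) ^ 6 * eval (Q 0) (D.F 0) := by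
      rw [← Pool.Agent.Sharp.H54.eval_smul_form (D.hom 0)]
      exact congrArg (fun u => eval u (D.F 0)) (funext hx0)
    rw [h.h0] at h1
    exact (mul_eq_zero.1 h1.symm).resolve_left (pow_ne_zero _ hξ)
  have hBy : eval (fun i => x (t i)) BL = (g 0 0) ^ 3 * eval (fun i => Q 0 (t i)) BL := by
    rw [← Pool.Agent.Sharp.H54.eval_smul_form hBLh]
    exact congrArg (fun u => eval u BL) (funext fun i => hx0 (t i))
  -- the estimate
  have e4 : v (dM e D Q (GX t t' BL) r) ≤
      v (m.det ^ 5) * (v (eval (fun i => Q 0 (t i)) BL) * M ^ 10) := by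
    refine dM_bound v e D Q _ r (m.det ^ 5) (pow_ne_zero _ hmdet) _ (fun I I' => ?_)
      fun r0 hr0 => ?_
    · rw [hr0, hr0, hr1, hr1, map_pow]
      have hmi' : ∀ i j, v (m⁻¹ i j) ≤ 1 := by
        intro i j
        rw [hm, ← Matrix.transpose_nonsing_inv, Matrix.transpose_apply]
        exact hmi j i
      rw [mul_comm (s3 m I' J)]
      exact hS2 L Γ v m hmdet hmi' I I' J J'
    · refine hE L Γ v M D hM hdel e Q (GX t t' BL) r0 (eval (fun i => Q 0 (t i)) BL)
        (fun I => ∏ i, Q 0 (t' i) ^ (I.1 i)) (fun I => GX_hom t t' hBLh I)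
        (fun I K => GX_coeff v t t' B I K) hFQ ⟨s, hs⟩ hQ (fun I => ?_) (fun I => ?_) hr0
      · unfold GX
        rw [map_mul, eval_rename, eval_rename, eval_monomial, one_mul,
          Finsupp.prod_fintype _ _ fun i => pow_zero _]
        rfl
      · rw [map_prod]
        refine Finset.prod_le_one' fun i _ => ?_
        rw [map_pow]
        exact pow_le_one' (hQ 0 (t' i)) _
  -- conclusion
  have hvm : v m.det = v (Mt P t').det := by rw [hdet]
  have hvm0 : v m.det ≠ 0 := (map_ne_zero v).2 hmdet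
  have e5 : v m.det ^ 9 * (v m.det * v (dM e D ![x, P 1, P 2] (GB t BL) (e2 J J'))) ≤
      v m.det ^ 9 * (v (eval (fun i => x (t i)) BL) * M ^ 10) := by
    calc v m.det ^ 9 * (v m.det * v (dM e D ![x, P 1, P 2] (GB t BL) (e2 J J')))
        = v (m.det ^ 10 * dM e D ![x, P 1, P 2] (GB t BL) (e2 J J')) := by
          rw [map_mul, map_pow, ← mul_assoc, ← pow_succ]
      _ = v (g.det ^ 4 * g 0 0 ^ 3 * dM e D Q (GX t t' BL) r) := by rw [← e1, e3]
      _ = v m.det ^ 4 * v (g 0 0) ^ 3 * v (dM e D Q (GX t t' BL) r) := by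
          rw [map_mul, map_mul, map_pow, map_pow, hgv, hvm]
      _ ≤ v m.det ^ 4 * v (g 0 0) ^ 3 *
          (v (m.det ^ 5) * (v (eval (fun i => Q 0 (t i)) BL) * M ^ 10)) := mul_le_mul' le_rfl e4
      _ = v m.det ^ 9 * (v (eval (fun i => x (t i)) BL) * M ^ 10) := by
          rw [hBy, map_mul, map_pow, map_pow, show (9 : ℕ) = 4 + 5 from rfl, pow_add]
          simp only [mul_assoc, mul_left_comm, mul_comm]
  have e6 : v m.det * v (dM e D ![x, P 1, P 2] (GB t BL) (e2 J J')) ≤
      v (eval (fun i => x (t i)) BL) * M ^ 10 :=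
    le_of_mul_le_mul_left e5 (pow_pos (zero_lt_iff.2 hvm0) 9)
  refine le_trans (mul_le_mul' ?_ le_rfl) e6
  rw [hvm]
  exact hmax τ

end

end Pool.Agent.T2.H14
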