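import Pool.Agent.Lib.MP_c7af3c_ag.T2.H14.M3C

/-!
# MP_c7af3c_ag, project T2: row M3_O2, the relation from the gradient (helper14)
-/

set_option autoImplicit false

namespace Pool.Agent.T2.H14

open MvPolynomial Pool.Agent.Gen Pool.Agent.Sharp Pool.Agent.Edge Pool.Agent.T2 Pool.Agent.T2.M3
open Pool.Agent.Edge.H65 (ssub)

/-- the determinant is linear in a row -/
theorem row_lin {K ι : Type} [Field K] [Fintype ι] [DecidableEq ι] (M : Matrix ι ι K) (a0 : ι) :
    ∃ φ : (ι → K) →ₗ[K] K, ∀ w, φ w = (M.updateRow a0 w).det :=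
  ⟨(Matrix.detRowAlternating (n := ι) (R := K)).toMultilinearMap.toLinearMap M a0, fun _ => rfl⟩

theorem euler_zero {K : Type} [Field K] {F : MvPolynomial (Fin 5) K} {d : ℕ}
    (hF : F.IsHomogeneous d) {x : Fin 5 → K} (h0 : eval x F = 0) :
    ∑ p, eval x (pderiv p F) * x p = 0 := by
  have h1 := congrArg (eval x) hF.sum_X_mul_pderiv
  rw [map_sum, map_nsmul, h0, smul_zero] at h1
  rw [← h1]
  refine Finset.sum_congr rfl fun p _ => ?_
  rw [map_mul, eval_X, mul_comm]

/-- Row M3_O2. -/
theorem m3o2 : O2Statement := by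
  intro K _ _ D x t P h B hB e J
  classical
  set Q : Fin 3 → Fin 5 → K := ![x, P 1, P 2] with hQ
  set M : Matrix Cl Cl K := Matrix.of fun a k => cM D Q (GB t B) (e2 J J) k (e a) with hM
  set a0 : Cl := e.symm (Sum.inr 1) with ha0
  obtain ⟨φ, hφa⟩ := row_lin M a0
  -- the unit rows
  have h1 : ∀ J' : I10, dM e D Q (GB t B) (e2 J J') = φ (Pi.single (Sum.inr J') 1) := by
    intro J'
    rw [hφa]
    unfold dM
    congr 1
    ext a k
    by_cases ha : a = a0
    · rw [ha, Matrix.updateRow_self, Matrix.of_apply, ha0, Equiv.apply_symm_apply]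
      rcases k with (k | k) | I
      · rfl
      · rfl
      · simp only [cM, Sum.elim_inr, e2, Matrix.cons_val_one, Matrix.cons_val_fin_one,
          Pi.single_apply, Sum.inr.injEq]
    · rw [Matrix.updateRow_ne ha, hM, Matrix.of_apply, Matrix.of_apply]
      rcases hea : e a with p | s
      · rcases k with (k | k) | I <;> rfl
      · rcases k with (k | k) | I
        · rfl
        · rfl
        · have hs : s = 0 := by
            rcases Fin.exists_fin_two.1 ⟨s, rfl⟩ with hs | hs
            · exact hs
            · exfalso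
              apply ha
              rw [ha0, ← hs, ← hea, Equiv.symm_apply_apply]
          subst hs
          rfl
  -- equal rows
  have h2 : ∀ a, a ≠ a0 → φ (M a) = 0 := by
    intro a ha
    rw [hφa]
    refine Matrix.det_zero_of_row_eq ha ?_
    rw [Matrix.updateRow_self]
    funext k
    rw [Matrix.updateRow_ne ha]
  -- the relation
  have h3 : ∑ J' : I10, (eval (fun i => x (t i)) B *
      eval (fun i => x (t i)) (monomial J'.1 (1 : K))) • (Pi.single (Sum.inr J') 1 : Cl → K) =
      - ∑ p, eval x (pderiv p (D.F 0)) • M (e.symm (Sum.inl (0, p))) := by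
    funext k
    rw [Pi.neg_apply, Finset.sum_apply, Finset.sum_apply]
    simp only [Pi.smul_apply, smul_eq_mul, hM, Matrix.of_apply, Equiv.apply_symm_apply]
    rcases k with (k | k) | I
    · have h4 : ∀ J' : I10, (Pi.single (Sum.inr J') (1 : K) : Cl → K) (Sum.inl (Sum.inl k)) = 0 :=
        fun J' => Pi.single_eq_of_ne (by simp) _
      simp only [h4, mul_zero, Finset.sum_const_zero, cM, Sum.elim_inl, if_true]
      have h5 := euler_zero (D.hom 0) h.h0
      rw [eq_comm, neg_eq_zero]
      exact h5
    · have h4 : ∀ J' : I10, (Pi.single (Sum.inr J') (1 : K) : Cl → K) (Sum.inl (Sum.inr k)) = 0 :=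
        fun J' => Pi.single_eq_of_ne (by simp) _
      simp only [h4, mul_zero, Finset.sum_const_zero, cM, Sum.elim_inl]
      rw [eq_comm, neg_eq_zero]
      refine Finset.sum_eq_zero fun p _ => ?_
      rw [if_neg (Fin.succ_ne_zero _).symm, mul_zero]
    · rw [Finset.sum_eq_single I]
      · rw [Pi.single_eq_same, mul_one]
        simp only [cM, Sum.elim_inl]
        have h5 := h.grad (GB_hom t hB I)
        have h6 : D.V (Q 0) 0 (GB t B I) = D.V x 0 (GB t B I) := rfl
        rw [h6, h5, neg_neg, h.eval_x]
        unfold GB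
        rw [h.ssub_rename, map_mul]
      · intro J' _ hJ'
        rw [Pi.single_eq_of_ne (by simpa using hJ'.symm), mul_zero]
      · intro hI
        exact absurd (Finset.mem_univ _) hI
  have h4 := congrArg φ h3
  rw [map_neg, map_sum, map_sum] at h4
  simp only [map_smul, smul_eq_mul] at h4
  rw [Finset.mul_sum]
  calc ∑ J' : I10, eval (fun i => x (t i)) B * (eval (fun i => x (t i)) (monomial J'.1 (1 : K)) *
        dM e D Q (GB t B) (e2 J J'))
      = ∑ J' : I10, eval (fun i => x (t i)) B * eval (fun i => x (t i)) (monomial J'.1 (1 : K)) *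
        φ (Pi.single (Sum.inr J') 1) := by
        refine Finset.sum_congr rfl fun J' _ => ?_
        rw [h1, mul_assoc]
    _ = 0 := by
        rw [h4, neg_eq_zero]
        refine Finset.sum_eq_zero fun p _ => ?_
        rw [h2 _ ?_, mul_zero]
        rw [ha0]
        intro h5
        have h6 := e.symm.injective h5
        simp at h6

end Pool.Agent.T2.H14
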