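import Pool.Agent.Lib.MP_c7af3c_ag.T2.IfaceB
import Pool.Agent.Lib.MP_c7af3c_ag.LINES.H19.Lsur
import Pool.Agent.Lib.MP_c7af3c_ag.LINES.H54.LvarX

/-!
# MP_c7af3c_ag, project T2: row NOLN (helper14)
-/

set_option autoImplicit false

namespace Pool.Agent.T2.H14

open MvPolynomial Pool.Agent.Gen Pool.Agent.Sharp Pool.Agent.Edge Pool.Agent.T2

theorem noln : NolnStatement := by
  intro K _ _ D x y hxy h
  have h1 := Pool.Agent.Lines.H19.four K 4 1 (fun _ => 6) D x y hxy
  have h2 := Pool.Agent.Lines.H54.lvarx K 4 1 (fun _ => 6) D x y hxy (fun m => by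
    rw [Fin.fin_one_eq_zero m]; exact h)
  simp only [Finset.sum_const, Finset.card_univ, Fintype.card_fin, one_smul] at h2
  omega

end Pool.Agent.T2.H14
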