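import Pool.Agent.Lib.MP_c7af3c_ag.T2.H14.Tools

/-!
# MP_c7af3c_ag, project T2: row PCAN (helper14)
-/

set_option autoImplicit false

namespace Pool.Agent.T2.H14

open MvPolynomial Pool.Agent.Gen Pool.Agent.Sharp Pool.Agent.Edge Pool.Agent.T2
open Pool.Agent.Sharp.H75 (dco DG af)
open Pool.Agent.Edge.H65 (ssub)
open Pool.Agent.T2.H65 (rst nv nF nD br dv mvL GF GE)

section

variable {K : Type} [Field K] {D : D6 K} {x : Fin 5 → K} {t : Fin 3 → Fin 5}
  {P : Fin 3 → Fin 5 → K}

/-- the action of a matrix is a combination of the `W(p,q)` -/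
theorem nv_W (D : D6 K) (x : Fin 5 → K) (E : Fin 5 → Fin 5 → K) :
    nv D x (0, E) = ∑ p, ∑ q, E p q • Sharp.WT D x p q := by
  classical
  have h1 : D.V x 0 (af E (D.F 0)) =
      ∑ p, ∑ q, E p q • D.V x 0 (X q * pderiv p (D.F 0)) := by
    unfold af H75.lf
    rw [map_sum]
    refine Finset.sum_congr rfl fun p _ => ?_
    rw [Finset.sum_mul, map_sum]
    refine Finset.sum_congr rfl fun q _ => ?_
    rw [mul_assoc, ← smul_eq_C_mul, map_smul]
  have h3 : mvL x E = ∑ p, ∑ q, E p q • (x q • Pi.single p (1 : K)) := by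
    funext r
    rw [Finset.sum_apply, Finset.sum_eq_single r]
    · rw [Finset.sum_apply]
      change Sharp.H75.dt (E r) x = _
      unfold Sharp.H75.dt
      refine Finset.sum_congr rfl fun q _ => ?_
      simp
    · intro p _ hp
      rw [Finset.sum_apply]
      refine Finset.sum_eq_zero fun q _ => ?_
      simp [Ne.symm hp]
    · intro h; exact absurd (Finset.mem_univ _) h
  have h4 : nv D x (0, E) = D.V x 0 (af E (D.F 0)) + mvL x E := by
    unfold nv
    rw [LinearMap.add_apply, LinearMap.comp_apply, LinearMap.comp_apply, H65.GF_apply,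
      LinearMap.snd_apply, zero_add]
  rw [h4, h1, h3, ← Finset.sum_add_distrib]
  refine Finset.sum_congr rfl fun p _ => ?_
  rw [← Finset.sum_add_distrib]
  refine Finset.sum_congr rfl fun q _ => ?_
  unfold Sharp.WT
  rw [smul_add, Sharp.VT_apply, Fin.sum_univ_one]
  exact add_comm _ _

/-- `nabla_E x` is a multiple of `x` -/
theorem nv_x (h : Pl D x t P) (E : Fin 5 → Fin 5 → K) :
    nv D x (0, E) ∈ Submodule.span K {x} := by
  rw [nv_W]
  exact Submodule.sum_mem _ fun p _ => Submodule.sum_mem _ fun q _ =>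
    Submodule.smul_mem _ _ (h.w0 p q)

theorem nv_split (D : D6 K) (v : Fin 5 → K) (G : MvPolynomial (Fin 5) K)
    (E : Fin 5 → Fin 5 → K) : nv D v (G, E) = D.V v 0 G + nv D v (0, E) := by
  rw [← H65.nv_zero_right, ← map_add]
  congr 1
  simp

theorem mvL_eq (v : Fin 5 → K) (E : Fin 5 → Fin 5 → K) (f : Fin 5) :
    mvL v E f = ∑ q, E f q * v q := rfl

theorem nv_zero_apply (D : D6 K) (v : Fin 5 → K) (E : Fin 5 → Fin 5 → K) (f : Fin 5) :
    nv D v (0, E) f = D.V v 0 (af E (D.F 0)) f + ∑ q, E f q * v q := by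
  unfold nv
  rw [LinearMap.add_apply, LinearMap.comp_apply, LinearMap.comp_apply, H65.GF_apply,
    LinearMap.snd_apply, zero_add, Pi.add_apply, mvL_eq]

/-- the covariant derivative of a form vanishing on the plane does not move the point -/
theorem V_nF (h : Pl D x t P) (E : Fin 5 → Fin 5 → K) {G : MvPolynomial (Fin 5) K}
    (hG : G.IsHomogeneous 6) (h0 : D.V x 0 G = 0) :
    D.V x 0 (nF D (0, E) G) = 0 := by
  apply h.span_x
  have hb := H65.nv_br D h.comm (g := ((0 : MvPolynomial (Fin 5) K), E))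
    (h := (G, (0 : Fin 5 → Fin 5 → K))) (isHomogeneous_zero _ _ _) hG x
  obtain ⟨a, ha⟩ := Submodule.mem_span_singleton.1 (nv_x h E)
  rw [H65.nv_zero_right, h0, H65.nv_zero, ← ha, H65.nv_smul, H65.nv_zero_right, h0, smul_zero,
    add_zero, zero_sub] at hb
  have hf : (br D ((0 : MvPolynomial (Fin 5) K), E) (G, (0 : Fin 5 → Fin 5 → K))).1 =
      nF D (0, E) G := by
    rw [H65.br_fst]
    unfold nF H75.dco H75.af
    simp
  obtain ⟨E', hE'⟩ : ∃ E', br D ((0 : MvPolynomial (Fin 5) K), E) (G, (0 : Fin 5 → Fin 5 → K)) =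
      (nF D (0, E) G, E') := ⟨_, Prod.ext hf rfl⟩
  rw [hE', nv_split] at hb
  have h1 : D.V x 0 (nF D (0, E) G) =
      -(nD D (G, 0) a • x) - nv D x (0, E') := by
    rw [hb]
    abel
  rw [h1]
  exact Submodule.sub_mem _ (Submodule.neg_mem _ (Submodule.smul_mem _ _
    (Submodule.mem_span_singleton_self x))) (nv_x h E')

/-- the linear form `X_f - sum_j P_j(f) X_(t j)` and its values -/
theorem ssub_lam (h : Pl D x t P) (f : Fin 5) :
    ssub P (X f - ∑ j, C (P j f) * X (t j)) = 0 := by
  rw [map_sub, map_sum, Edge.H65.ssub_X]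
  simp only [map_mul, Edge.H65.ssub_C, Edge.H65.ssub_X, h.Pt]
  rw [sub_eq_zero]
  refine Finset.sum_congr rfl fun i _ => ?_
  congr 1
  rw [Finset.sum_eq_single i]
  · rw [if_pos rfl, C_1, one_mul]
  · intro j _ hij
    rw [if_neg hij, C_0, zero_mul]
  · intro hj; exact absurd (Finset.mem_univ _) hj

theorem dv_lam (P : Fin 3 → Fin 5 → K) (t : Fin 3 → Fin 5) (f : Fin 5) (u : Fin 5 → K) :
    dv u (X f - ∑ j, C (P j f) * X (t j)) = C (u f - ∑ j, P j f * u (t j)) := by
  rw [map_sub, map_sum, H65.dv_X]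
  simp only [Derivation.leibniz, H65.dv_X, smul_eq_mul]
  rw [C_sub, map_sum C]
  congr 1
  refine Finset.sum_congr rfl fun j _ => ?_
  rw [C_mul]
  have : dv u (C (P j f)) = 0 := MvPolynomial.derivation_C _ _
  rw [this, mul_zero, add_zero]

/-- the plane is canonical -/
theorem nv_P [CharZero K] (h : Pl D x t P) (E : Fin 5 → Fin 5 → K) (f : Fin 5) (i : Fin 3) :
    nv D (P i) (0, E) f - ∑ j, P j f * nv D (P i) (0, E) (t j) = 0 := by
  classical
  -- the linear form `z`
  set z : Fin 3 → K := fun i => nv D (P i) (0, E) f - ∑ j, P j f * nv D (P i) (0, E) (t j)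
    with hz
  suffices h0 : z = 0 from congrFun h0 i
  by_contra hne
  set lam : MvPolynomial (Fin 5) K := X f - ∑ j, C (P j f) * X (t j) with hlam
  have hlh : lam.IsHomogeneous 1 := by
    refine (isHomogeneous_X _ _).sub (IsHomogeneous.sum _ _ _ fun j _ => ?_)
    have := (isHomogeneous_C (Fin 5) (P j f)).mul (isHomogeneous_X K (t j))
    rwa [zero_add] at this
  have hl0 : ssub P lam = 0 := ssub_lam h f
  -- the restriction of the covariant derivative of `lam A`
  have key : ∀ A : MvPolynomial (Fin 5) K, A.IsHomogeneous 5 →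
      ssub P (nF D (0, E) (lam * A)) = - ((∑ i, C (z i) * X i) * ssub P A) ∧
      D.V x 0 (nF D (0, E) (lam * A)) = 0 ∧ (nF D (0, E) (lam * A)).IsHomogeneous 6 := by
    intro A hA
    have hh : (lam * A).IsHomogeneous 6 := by
      have := hlh.mul hA
      rwa [show 1 + 5 = 6 from rfl] at this
    refine ⟨?_, V_nF h E hh (h.int _ hh (by rw [map_mul, hl0, zero_mul])).1,
      H65.nF_hom D hh⟩
    have h1 := H65.dco_rst_nab D P (0, E) (lam * A)
    have h2 : rst P (lam * A) = 0 := by
      change ssub P (lam * A) = 0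
      rw [map_mul, hl0, zero_mul]
    rw [h2, H75.dco_zero] at h1
    have h3 : ∀ i, rst P (dv (nv D (P i) (0, E)) (lam * A)) = C (z i) * ssub P A := by
      intro i
      rw [Derivation.leibniz, hlam, dv_lam]
      change ssub P _ = _
      rw [map_add, smul_eq_mul, smul_eq_mul, map_mul, map_mul, ← hlam, hl0, zero_mul, zero_add,
        Edge.H65.ssub_C, mul_comm]
    simp only [h3] at h1
    change 0 = ssub P _ + _ at h1
    rw [eq_comm, ← sub_eq_zero] at h1
    rw [Finset.sum_mul]
    have h4 : ∀ i : Fin 3, (X i : MvPolynomial (Fin 3) K) * (C (z i) * ssub P A) =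
        C (z i) * X i * ssub P A := fun i => by ring
    simp only [h4] at h1
    linear_combination h1
  -- `z` vanishes at the point
  set c : Fin 3 → K := fun i => x (t i) with hc
  have hzc : ∑ i, z i * c i = 0 := by
    have hA : (X (t 0) ^ 5 : MvPolynomial (Fin 5) K).IsHomogeneous 5 := by
      simpa using (isHomogeneous_X K (t 0)).pow 5
    obtain ⟨h1, h2, h3⟩ := key _ hA
    have h4 := h.eval_zero h3 h2
    rw [h.eval_x, h1, map_neg, map_mul, ← h.eval_x, map_pow, eval_X, h.x0, one_pow, mul_one,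
      neg_eq_zero, map_sum] at h4
    rw [← h4]
    refine Finset.sum_congr rfl fun i _ => ?_
    rw [map_mul, eval_C, eval_X]
  -- a second point of the line
  obtain ⟨b, hb, hbc⟩ : ∃ b : Fin 3 → K, ∑ i, z i * b i = 0 ∧ LinearIndependent K ![c, b] := by
    have hc0 : c 0 = 1 := h.x0
    have hb : ∀ b : Fin 3 → K, b 0 = 0 → b ≠ 0 → LinearIndependent K ![c, b] := by
      intro b hb0 hb1
      rw [LinearIndependent.pair_iff]
      intro s r hsr
      have h1 := congrFun hsr 0
      simp only [Pi.add_apply, Pi.smul_apply, smul_eq_mul, hc0, hb0, mul_one, mul_zero, add_zero,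
        Pi.zero_apply] at h1
      refine ⟨h1, ?_⟩
      rw [h1, zero_smul, zero_add] at hsr
      exact (smul_eq_zero.1 hsr).resolve_right hb1
    by_cases hz1 : z 1 = 0 ∧ z 2 = 0
    · exfalso
      rw [Fin.sum_univ_three, hz1.1, hz1.2, hc0] at hzc
      apply hne
      funext i
      fin_cases i
      · simpa using hzc
      · exact hz1.1
      · exact hz1.2
    · refine ⟨![0, - z 2, z 1], ?_, hb _ rfl ?_⟩
      · rw [Fin.sum_univ_three]
        simp only [Matrix.cons_val_zero, Matrix.cons_val_one, Matrix.cons_val]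
        ring
      · intro h0
        apply hz1
        have e1 := congrFun h0 1
        have e2 := congrFun h0 2
        simp only [Matrix.cons_val_one, Matrix.cons_val, Pi.zero_apply] at e1 e2
        exact ⟨e2, neg_eq_zero.1 e1⟩
  -- the contradiction to `ln`
  set y : Fin 5 → K := fun f => ∑ i, P i f * b i with hy
  have hxy : LinearIndependent K ![x, y] := by
    rw [LinearIndependent.pair_iff] at hbc ⊢
    intro s r hsr
    apply hbc
    have hli := Fintype.linearIndependent_iff.1 h.li_P (s • c + r • b) (by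
      funext f
      have h1 := congrFun hsr f
      rw [Pi.add_apply, Pi.smul_apply, Pi.smul_apply, h.xP f, hy] at h1
      rw [Finset.sum_apply, ← h1, smul_eq_mul, smul_eq_mul, Finset.mul_sum, Finset.mul_sum,
        ← Finset.sum_add_distrib]
      refine Finset.sum_congr rfl fun i _ => ?_
      simp only [Pi.smul_apply, Pi.add_apply, smul_eq_mul, hc]
      ring)
    funext i
    exact hli i
  obtain ⟨G, hG, hGl, hGV⟩ := h.ln y 0 hxy
  have hx2 : x = fun f => ∑ i, P i f * c i := h.x_eq
  have hGl' : lineP (ssub P G) c b = 0 := by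
    rw [← lineP_ssub, ← hx2]
    exact hGl
  obtain ⟨A3, hA3, hA3e⟩ := div_of_line (e := 5) (Edge.H65.ssub_hom P hG) hbc hGl' hne hzc hb
  obtain ⟨h1, h2, h3⟩ := key (- rename t A3) (hA3.rename_isHomogeneous (f := t)).neg
  apply hGV
  have h4 : ssub P G = ssub P (nF D (0, E) (lam * (- rename t A3))) := by
    rw [h1, map_neg, h.ssub_rename, mul_neg, neg_neg, hA3e]
  rw [(h.V_congr hG h3 h4).1, h2]
  exact Submodule.zero_mem _

theorem pcan : PcanStatement := by
  intro K _ _ D x t P h E
  refine ⟨fun f => ?_, fun i f => ?_⟩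
  · obtain ⟨a, ha⟩ := Submodule.mem_span_singleton.1 (nv_x h E)
    have h1 := congrFun ha (t 0)
    have h2 := congrFun ha f
    rw [Pi.smul_apply, smul_eq_mul, nv_zero_apply] at h1 h2
    rw [h.x0, h.V_x0, mul_one, zero_add] at h1
    rw [← h2, h1]
  · have h1 := nv_P h E f i
    rw [sub_eq_zero, nv_zero_apply] at h1
    rw [h1]
    refine Finset.sum_congr rfl fun j _ => ?_
    rw [nv_zero_apply, h.V_Pt, zero_add, mul_comm]
    rfl

end

end Pool.Agent.T2.H14
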