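import Pool.Agent.Lib.MP_c7af3c_ag.T2.H14.Asmb
import Pool.Agent.Lib.MP_c7af3c_ag.T2.H14.M3C
import Pool.Agent.Lib.MP_c7af3c_ag.T2.H14.M3O2
import Pool.Agent.Lib.MP_c7af3c_ag.T2.H14.Pcan
import Pool.Agent.Lib.MP_c7af3c_ag.T2.H14.Noln
import Pool.Agent.Lib.MP_c7af3c_ag.T2.H38.M3O1
import Pool.Agent.Lib.MP_c7af3c_ag.T2.H38.M3O3
import Pool.Agent.Lib.MP_c7af3c_ag.T2.H38.Dens
import Pool.Agent.Lib.MP_c7af3c_ag.T2.H49.M3S1
import Pool.Agent.Lib.MP_c7af3c_ag.T2.H60.M3A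
import Pool.Agent.Lib.MP_c7af3c_ag.T2.H60.Uniq
import Pool.Agent.Lib.MP_c7af3c_ag.T2.H95.M3F
import Pool.Agent.Lib.MP_c7af3c_ag.T2.H95.Close
import Pool.Agent.Lib.MP_c7af3c_ag.T2.H95.Lift
import Pool.Agent.Lib.MP_c7af3c_ag.T2.H79.Phi
import Pool.Agent.Lib.MP_c7af3c_ag.T2.H42.Qintb
import Pool.Agent.Lib.MP_c7af3c_ag.T2.H8.Q
import Pool.Agent.Lib.MP_c7af3c_ag.T2.H8.Stab
import Pool.Agent.Lib.MP_c7af3c_ag.T2.H8.Qcl
import Pool.Agent.Lib.MP_c7af3c_ag.T2.H32.Norm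
import Pool.Agent.Lib.MP_c7af3c_ag.T2.H12.Norm1
import Pool.Agent.Lib.MP_c7af3c_ag.T2.H44.Rigid

/-!
# MP_c7af3c_ag, project T2: the plane type is impossible, from the open rows
-/

set_option autoImplicit false

namespace Pool.Agent.T2.H14

open MvPolynomial Pool.Agent.Gen Pool.Agent.Sharp Pool.Agent.Edge Pool.Agent.T2

theorem onto_of (s2 : M3.S2Statement) (e : M3.EStatement) : OntoStatement :=
  H38.o3 H49.s1 s2 H95.m3f e M3.m3a m3c H38.o1 m3o2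

theorem plane_of (onto : OntoStatement) (lemc : LemcStatement)
    (norm2 : NormqStatement (X 0 * X 2)) (norm3 : NormqStatement (X 1 * X 2))
    (norm4 : NormqStatement (X 2 ^ 2)) : PlaneTypeStatement :=
  asmb onto H95.close H95.lift H38.dens lemc H60.uniq H42.qintb H32.norm H8.qcl H12.norm1
    norm2 norm3 norm4 pcan H79.phi H8.qint H8.qeq H8.stab H44.rigid noln

end Pool.Agent.T2.H14
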