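import Pool.Agent.Lib.MP_c7af3c_ag.T2.H14.Tools

/-!
# MP_c7af3c_ag, project T2: row ASM of the plane type (helper14)
-/

set_option autoImplicit false

namespace Pool.Agent.T2.H14

open MvPolynomial Pool.Agent.Gen Pool.Agent.Sharp Pool.Agent.Edge Pool.Agent.T2
open Pool.Agent.Sharp.H75 (dco DG af)
open Pool.Agent.Edge.H65 (ssub)

section

variable {K : Type} [Field K]

/-- linear forms -/
theorem lin_eq {z : MvPolynomial (Fin 3) K} (hz : z.IsHomogeneous 1) :
    z = ∑ i, C (coeff (Finsupp.single i 1) z) * X i := by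
  classical
  ext I
  rw [coeff_sum]
  by_cases hI : I.degree = 1
  · obtain ⟨i, rfl⟩ : ∃ i, I = Finsupp.single i 1 := by
      obtain ⟨i, hi⟩ : ∃ i, I i ≠ 0 := by
        by_contra h
        push Not at h
        have : I = 0 := Finsupp.ext h
        rw [this, map_zero] at hI
        exact zero_ne_one hI
      refine ⟨i, ?_⟩
      have h1 : Finsupp.single i 1 ≤ I := by
        rw [Finsupp.single_le_iff]
        omega
      obtain ⟨J, hJ⟩ := exists_add_of_le h1
      have h2 : J.degree = 0 := by
        have := congrArg Finsupp.degree hJ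
        rw [map_add, Finsupp.degree_single, hI] at this
        omega
      rw [hJ, (Finsupp.degree_eq_zero_iff _).1 h2, add_zero]
    simp only [coeff_C_mul, coeff_X]
    rw [Finset.sum_eq_single i]
    · rw [if_pos rfl, mul_one]
    · intro j _ hj
      rw [if_neg (fun h => hj (Finsupp.single_left_injective one_ne_zero h)), mul_zero]
    · intro h; exact absurd (Finset.mem_univ _) h
  · have h1 : coeff I z = 0 := by
      by_contra h
      apply hI
      have := hz h
      rw [← this, Finsupp.degree_eq_weight_one]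
      rfl
    rw [h1]
    symm
    refine Finset.sum_eq_zero fun i _ => ?_
    rw [coeff_C_mul, coeff_X, if_neg, mul_zero]
    intro h
    apply hI
    rw [← h, Finsupp.degree_single]

/-- two points of a line in the plane -/
theorem two_pts {z : Fin 3 → K} (hz : z ≠ 0) :
    ∃ b c : Fin 3 → K, ∑ i, z i * b i = 0 ∧ ∑ i, z i * c i = 0 ∧
      LinearIndependent K ![b, c] := by
  simp only [Fin.sum_univ_three]
  by_cases h0 : z 0 = 0
  · by_cases h1 : z 1 = 0
    · refine ⟨![1, 0, 0], ![0, 1, 0], ?_, ?_, ?_⟩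
      · simp [h0]
      · simp [h1]
      · rw [LinearIndependent.pair_iff]
        intro s r h
        have e0 := congrFun h 0
        have e1 := congrFun h 1
        simp at e0 e1
        exact ⟨e0, e1⟩
    · refine ⟨![1, 0, 0], ![0, - z 2, z 1], ?_, ?_, ?_⟩
      · simp [h0]
      · simp
        ring
      · rw [LinearIndependent.pair_iff]
        intro s r h
        have e0 := congrFun h 0
        have e1 := congrFun h 2
        simp at e0 e1
        exact ⟨e0, e1.resolve_right h1⟩
  · refine ⟨![- z 1, z 0, 0], ![- z 2, 0, z 0], ?_, ?_, ?_⟩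
    · simp
      ring
    · simp
      ring
    · rw [LinearIndependent.pair_iff]
      intro s r h
      have e0 := congrFun h 1
      have e1 := congrFun h 2
      simp at e0 e1
      exact ⟨e0.resolve_right h0, e1.resolve_right h0⟩

/-- the restriction of the form has no linear factor -/
theorem no_lin (hN : NolnStatement) [CharZero K] {D : D6 K} {x : Fin 5 → K} {t : Fin 3 → Fin 5}
    {P : Fin 3 → Fin 5 → K} (h : Pl D x t P) {z : MvPolynomial (Fin 3) K}
    (hz : z.IsHomogeneous 1) (hz0 : z ≠ 0) : ssub P (D.F 0) ∉ mulS z 5 := by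
  rw [mem_mulS]
  rintro ⟨A, -, hA⟩
  have hz1 := lin_eq hz
  set zc : Fin 3 → K := fun i => coeff (Finsupp.single i 1) z with hzc
  have hzc0 : zc ≠ 0 := by
    intro h0
    apply hz0
    rw [hz1]
    refine Finset.sum_eq_zero fun i _ => ?_
    rw [show coeff (Finsupp.single i 1) z = 0 from congrFun h0 i, C_0, zero_mul]
  obtain ⟨b, c, hb, hc, hbc⟩ := two_pts hzc0
  have hli : LinearIndependent K ![(fun f => ∑ i, P i f * b i : Fin 5 → K),
      fun f => ∑ i, P i f * c i] := by
    rw [LinearIndependent.pair_iff] at hbc ⊢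
    intro s r hsr
    apply hbc
    have hli := Fintype.linearIndependent_iff.1 h.li_P (s • b + r • c) (by
      funext f
      have h1 := congrFun hsr f
      rw [Pi.add_apply, Pi.smul_apply, Pi.smul_apply] at h1
      rw [Finset.sum_apply, ← h1, smul_eq_mul, smul_eq_mul, Finset.mul_sum, Finset.mul_sum,
        ← Finset.sum_add_distrib]
      refine Finset.sum_congr rfl fun i _ => ?_
      simp only [Pi.smul_apply, Pi.add_apply, smul_eq_mul]
      ring)
    funext i
    exact hli i
  apply hN K D _ _ hli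
  rw [lineP_ssub, ← hA]
  have h1 : lineP z b c = 0 := by
    rw [hz1]
    unfold lineP
    rw [map_sum]
    simp only [map_mul, aeval_X, algHom_C, Polynomial.algebraMap_eq]
    have e : ∀ i : Fin 3, (Polynomial.C (coeff (Finsupp.single i 1) z) *
        (Polynomial.C (b i) + Polynomial.X * Polynomial.C (c i)) : Polynomial K) =
        Polynomial.C (zc i * b i) + Polynomial.X * Polynomial.C (zc i * c i) := by
      intro i
      rw [map_mul, map_mul]
      ring
    simp only [e]
    rw [Finset.sum_add_distrib, ← Finset.mul_sum, ← map_sum, ← map_sum, hb, hc, map_zero,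
      mul_zero, add_zero]
  have h2 : lineP (z * A) b c = lineP z b c * lineP A b c := map_mul _ _ _
  rw [h2, h1, zero_mul]

/-- the motions of the plane in itself -/
def psi (P : Fin 3 → Fin 5 → K) : (Fin 3 → Fin 3 → K) →ₗ[K] (Fin 3 → Fin 5 → K) where
  toFun L := fun i f => ∑ j, L j i * P j f
  map_add' L L' := by
    funext i f
    simp only [Pi.add_apply, add_mul, Finset.sum_add_distrib]
  map_smul' c L := by
    funext i f
    simp only [Pi.smul_apply, smul_eq_mul, RingHom.id_apply, Finset.mul_sum, mul_assoc]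

theorem psi_apply (P : Fin 3 → Fin 5 → K) (L : Fin 3 → Fin 3 → K) (i : Fin 3) (f : Fin 5) :
    psi P L i f = ∑ j, L j i * P j f := rfl

theorem psi_t {D : D6 K} {x : Fin 5 → K} {t : Fin 3 → Fin 5}
    {P : Fin 3 → Fin 5 → K} (h : Pl D x t P) (L : Fin 3 → Fin 3 → K) (i j : Fin 3) :
    psi P L i (t j) = L j i := by
  rw [psi_apply]
  simp only [h.Pt]
  rw [Finset.sum_eq_single j]
  · rw [if_pos rfl, mul_one]
  · intro k _ hk
    rw [if_neg hk, mul_zero]
  · intro hj; exact absurd (Finset.mem_univ _) hj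

end

theorem asmb : AsmbStatement := by
  intro honto hclose hlift hdens hlemc huniq hqintb hnorm hqcl h1 h2 h3 h4 hpcan hphi hqint hqeq
    hstab hrigid hnoln Ω _ _ k Γ _ S D x t P hS hP
  have hA : PlA k D x t P := { hP with
    kF := fun I => hS.kF 0 I
    kalg := hS.kalg
    xk := hS.xk }
  have hR := hphi hpcan Ω D x t P hP
  have hB := honto Ω k Γ S D x t P hS hP hR
  obtain ⟨K, _, _, _, k', D', x', P', hA', hB'⟩ := hlift hclose Ω k D x t P hA hB
  have hP' : Pl D' x' t P' := hA'.toPl
  have hR' := hphi hpcan K D' x' t P' hP'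
  obtain ⟨q, hq, hq0, hqR⟩ := hlemc K _ hR' (hdens K _ hR'.le hB')
  obtain ⟨hk2, hst⟩ := hstab huniq hqintb hpcan hqint hqeq K D' x' t P' hP' hR' q hq hq0 hqR
  -- the conic passes through the point
  have hqy : eval (fun i => x' (t i)) q = 0 := by
    have hX : ((X 0 : MvPolynomial (Fin 3) K) ^ 4).IsHomogeneous 4 := by
      simpa using (isHomogeneous_X K (0 : Fin 3)).pow 4
    have hm : q * X 0 ^ 4 ∈ R6 D' x' t P' := hqR (mem_mulS.2 ⟨_, hX, rfl⟩)
    have hg : (q * (X 0 : MvPolynomial (Fin 3) K) ^ 4).IsHomogeneous 6 := by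
      have := hq.mul hX
      rwa [show 2 + 4 = 6 from rfl] at this
    have e1 := hP'.eval_zero (hg.rename_isHomogeneous (f := t)) hm.2.1
    rw [hP'.eval_x, hP'.ssub_rename, map_mul, map_pow, eval_X, hP'.x0, one_pow, mul_one] at e1
    exact e1
  have hy : (fun i => x' (t i)) ≠ 0 := fun h0 => by
    have := congrFun h0 0
    rw [hP'.x0, Pi.zero_apply] at this
    exact one_ne_zero this
  have hfy : eval (fun i => x' (t i)) (ssub P' (D'.F 0)) = 0 := by
    rw [← hP'.eval_x, hP'.h0]
  -- the stabiliser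
  have hle : kk D' P' q ≤ LinearMap.range (psi P') := by
    intro e he
    obtain ⟨L, hL, -⟩ := hst e he
    refine ⟨L, ?_⟩
    funext i f
    rw [psi_apply, hL i f]
  have hM : Stb q (ssub P' (D'.F 0)) (fun i => x' (t i)) ((kk D' P' q).comap (psi P')) := by
    have key : ∀ L ∈ (kk D' P' q).comap (psi P'), (∃ c, ∀ j, ∑ i, L j i * x' (t i) =
        c * x' (t j)) ∧ (∃ c, af L q = C c * q) ∧ af L (ssub P' (D'.F 0)) ∈ mulS q 4 := by
      intro L hL
      obtain ⟨L', hL', e1, e2, e3⟩ := hst _ (Submodule.mem_comap.1 hL)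
      have hLL : L = L' := by
        funext j i
        rw [← psi_t hP' L i j, ← psi_t hP' L' i j, hL' i (t j), psi_apply]
      rw [hLL]
      exact ⟨e1, e2, e3⟩
    refine ⟨?_, fun L hL => (key L hL).1, fun L hL => (key L hL).2.1, fun L hL => (key L hL).2.2⟩
    have e1 : ((kk D' P' q).comap (psi P')).map (psi P') = kk D' P' q :=
      Submodule.map_comap_eq_of_le hle
    calc 2 ≤ Module.finrank K (kk D' P' q) := hk2
      _ = Module.finrank K (((kk D' P' q).comap (psi P')).map (psi P') : Submodule K _) := by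
        rw [e1]
      _ ≤ _ := Submodule.finrank_map_le _ _
  obtain ⟨g, q0, f0, y0, a, b, hC⟩ := hnorm hqcl h1 h2 h3 h4 K q (ssub P' (D'.F 0))
    (fun i => x' (t i)) hq hq0 (Edge.H65.ssub_hom P' (D'.hom 0)) hy hqy hfy
    (fun z hz hz0 => no_lin hnoln hP' hz hz0) _ hM
  refine hrigid K k' D' x' t P' hA' q hq hq0 (fun e he => ?_) g q0 f0 y0 a b hC
  obtain ⟨L, hL, ⟨c, hc⟩, -⟩ := hst e he
  refine ⟨c, fun f => ?_⟩
  rw [hP'.xP f, Finset.mul_sum]
  have e1 : ∀ i, x' (t i) * e i f = ∑ j, L j i * x' (t i) * P' j f := by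
    intro i
    rw [hL, Finset.mul_sum]
    refine Finset.sum_congr rfl fun j _ => ?_
    ring
  simp only [e1]
  rw [Finset.sum_comm]
  refine Finset.sum_congr rfl fun j _ => ?_
  rw [← Finset.sum_mul, hc j]
  ring

end Pool.Agent.T2.H14
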